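import Pool.Agent.TH261.BV.Cpx

set_option autoImplicit false

/-!
Borcea's `p`-variance inequality `h(F, F') ≤ σ_p(F)`, for every `p ≥ 1`, for all polynomials whose
zeros lie on one line (in particular for all real-rooted polynomials): every zero of `F` has a
critical point whose distance to it is at most the mean distance of the zeros of `F` to any given
point `c`.

Idea.  Let `0` be a simple zero and suppose that there is no critical point at distance at most `1`
from it.  Then the other zeros `u_i` satisfy `|u_i| > 1`, `∑ 1/(1 - u_i) > -1` and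
`∑ 1/(1 + u_i) > -1`, and elementary convexity arguments give `|c| + ∑ |u_i - c| > n`.
-/

namespace Pool.Agent.Results.MP_af3a4a_an.CollinearZeros

/-- **Borcea's inequality for collinear zeros.** -/
theorem result (n : ℕ) (hn : 2 ≤ n) (z : Fin n → ℂ) (hz : Collinear ℝ (Set.range z))
    (p : ℝ) (hp : 1 ≤ p) (c : ℂ) (k : Fin n) :
    ∃ w : ℂ,
      (Polynomial.derivative (∏ j : Fin n, (Polynomial.X - Polynomial.C (z j)))).IsRoot w ∧
      ‖z k - w‖ ≤ ((1 / (n : ℝ)) * ∑ j : Fin n, ‖z j - c‖ ^ p) ^ (1 / p) := by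
  obtain ⟨α, β, x, hx⟩ := Pool.Agent.TH261.BV.exists_param hz
  obtain ⟨w, hw, hle⟩ := Pool.Agent.TH261.BV.exists_crit_cpx hn α β x z hx c k
  exact ⟨_, Pool.Agent.TH261.BV.isRoot_of_D α β x z hx hw,
    hle.trans (Pool.Agent.TH261.BV.mean_le_pmean (by omega) _ (fun _ => norm_nonneg _) hp)⟩

end Pool.Agent.Results.MP_af3a4a_an.CollinearZeros
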